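import Pool.Agent.Helper51_D1.Wts
import Pool.Agent.Helper20_PP.MatS
import Pool.Agent.Helper66_PP.Pos1
import Pool.Agent.Helper46_PP.Blk

/-!
# Squad PP, part D1, module CLD: the defect group of a block of defect one
-/

open scoped BigOperators

set_option linter.unusedSectionVars false

noncomputable section

namespace Pool.Agent.PP.D1H51

open Pool.Agent.Helper51_AWC Pool.Agent.Helper79_WRA Pool.Agent.PP

/-! ### Class functions -/

section cls

variable {F N : Type} [Field F] [Group N] [Finite N]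

theorem clsum_cl (x : N) : IsCl (clsum F (⊤ : Subgroup N) x) := by
  classical
  intro y g
  unfold clsum
  have hiff : (∃ q ∈ (⊤ : Subgroup N), g * y * g⁻¹ = q * x * q⁻¹) ↔
      ∃ q ∈ (⊤ : Subgroup N), y = q * x * q⁻¹ := by
    constructor
    · rintro ⟨q, -, h⟩
      refine ⟨g⁻¹ * q, Subgroup.mem_top _, ?_⟩
      calc y = g⁻¹ * (g * y * g⁻¹) * g := by group
        _ = g⁻¹ * (q * x * q⁻¹) * g := by rw [h]
        _ = _ := by group
    · rintro ⟨q, -, h⟩
      refine ⟨g * q, Subgroup.mem_top _, ?_⟩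
      rw [h]
      group
  by_cases h : ∃ q ∈ (⊤ : Subgroup N), y = q * x * q⁻¹
  · rw [if_pos h, if_pos (hiff.2 h)]
  · rw [if_neg h, if_neg (fun h' => h (hiff.1 h'))]

/-- a class function is a combination of class sums -/
theorem cl_expand {a : N → F} (ha : IsCl a) [Fintype (ConjClasses N)] :
    a = ∑ K : ConjClasses N, a (Quotient.out K) • clsum F ⊤ (Quotient.out K) := by
  classical
  funext y
  rw [Finset.sum_apply]
  have hout : ∀ K : ConjClasses N, ConjClasses.mk (Quotient.out K) = K := fun K =>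
    Quotient.out_eq K
  have hiff : ∀ K : ConjClasses N, (∃ q ∈ (⊤ : Subgroup N),
      y = q * Quotient.out K * q⁻¹) ↔ K = ConjClasses.mk y := by
    intro K
    constructor
    · rintro ⟨q, -, h⟩
      rw [← hout K, ConjClasses.mk_eq_mk_iff_isConj, isConj_iff]
      exact ⟨q, h.symm⟩
    · intro h
      rw [← hout K, ConjClasses.mk_eq_mk_iff_isConj, isConj_iff] at h
      obtain ⟨q, hq⟩ := h
      exact ⟨q, Subgroup.mem_top _, hq.symm⟩
  rw [Finset.sum_eq_single (ConjClasses.mk y)]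
  · have h1 := (hiff (ConjClasses.mk y)).2 rfl
    obtain ⟨q, -, hq⟩ := h1
    have h2 : a y = a (Quotient.out (ConjClasses.mk y)) := by
      conv_lhs => rw [hq]
      exact ha _ _
    show a y = a (Quotient.out (ConjClasses.mk y)) *
      clsum F ⊤ (Quotient.out (ConjClasses.mk y)) y
    unfold clsum
    rw [if_pos ((hiff (ConjClasses.mk y)).2 rfl), mul_one]
    exact h2
  · intro K _ hK
    show a (Quotient.out K) * clsum F ⊤ (Quotient.out K) y = 0
    unfold clsum
    rw [if_neg (fun h => hK ((hiff K).1 h)), mul_zero]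
  · intro h
    exact absurd (Finset.mem_univ _) h

theorem dz_of_prC {ℓ : ℕ} {a : N → F} (h : PrC ℓ a) : DZ ℓ a := by
  classical
  have := Fintype.ofFinite (ConjClasses N)
  unfold DZ
  rw [cl_expand h.1]
  refine Submodule.sum_mem _ fun K _ => ?_
  by_cases h0 : a (Quotient.out K) = 0
  · rw [h0, zero_smul]
    exact Submodule.zero_mem _
  · refine Submodule.smul_mem _ _ (Submodule.subset_span ⟨Quotient.out K, ?_, rfl⟩)
    intro hd
    exact h0 (h.2 _ hd)

/-- the class sum of an element of defect zero -/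
theorem prC_clsum {ℓ : ℕ} {x : N} (hx : ¬ ℓ ∣ Nat.card (Subgroup.centralizer ({x} : Set N))) :
    PrC ℓ (clsum F (⊤ : Subgroup N) x) := by
  classical
  refine ⟨clsum_cl x, ?_⟩
  intro y hy
  unfold clsum
  rw [if_neg]
  rintro ⟨q, -, rfl⟩
  apply hx
  have h2 : (Subgroup.centralizer ({x} : Set N)).map (MulAut.conj q).toMonoidHom =
      Subgroup.centralizer ({q * x * q⁻¹} : Set N) := by
    ext g
    rw [Subgroup.mem_map, Subgroup.mem_centralizer_singleton_iff]
    constructor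
    · rintro ⟨z, hz, rfl⟩
      rw [Subgroup.mem_centralizer_singleton_iff] at hz
      have h3 : (MulAut.conj q).toMonoidHom z = q * z * q⁻¹ := rfl
      rw [h3]
      calc q * z * q⁻¹ * (q * x * q⁻¹) = q * (z * x) * q⁻¹ := by group
        _ = q * (x * z) * q⁻¹ := by rw [hz]
        _ = q * x * q⁻¹ * (q * z * q⁻¹) := by group
    · intro hg
      refine ⟨q⁻¹ * g * q, ?_, ?_⟩
      · rw [Subgroup.mem_centralizer_singleton_iff]
        calc q⁻¹ * g * q * x = q⁻¹ * (g * (q * x * q⁻¹)) * q := by group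
          _ = q⁻¹ * (q * x * q⁻¹ * g) * q := by rw [hg]
          _ = x * (q⁻¹ * g * q) := by group
      · show q * (q⁻¹ * g * q) * q⁻¹ = g
        group
  rw [← h2, Subgroup.card_map_of_injective (MulAut.conj q).injective] at hy
  exact hy

theorem ev_lin {n : ℕ} (ρ : N →* Matrix (Fin n) (Fin n) F) {ι : Type} (s : Finset ι) (c : ι → F)
    (a : ι → N → F) : ev ρ (∑ i ∈ s, c i • a i) = ∑ i ∈ s, c i • ev ρ (a i) := by
  have := Fintype.ofFinite N
  unfold ev
  simp only [finsum_eq_sum_of_fintype, Finset.sum_apply, Pi.smul_apply, smul_eq_mul]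
  simp only [Finset.smul_sum, Finset.sum_smul]
  rw [Finset.sum_comm]
  refine Finset.sum_congr rfl fun i _ => Finset.sum_congr rfl fun t _ => ?_
  rw [smul_smul]

theorem ev_iter {n : ℕ} (ρ : N →* Matrix (Fin n) (Fin n) F) (z b : N → F) (k : ℕ) :
    ev ρ ((mulF z)^[k] b) = ev ρ z ^ k * ev ρ b := by
  induction k with
  | zero => rw [Function.iterate_zero, id, pow_zero, one_mul]
  | succ k ih => rw [Function.iterate_succ_apply', H20.ev_mulF, ih, ← mul_assoc, pow_succ']

/-- an element acting by a nonzero scalar in a representation over `b` is not nilpotent under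
`b` -/
theorem not_nil {n : ℕ} {ρ : N →* Matrix (Fin n) (Fin n) F} (hρ : IsIrr ρ) {z b : N → F} {w : F}
    (hw : w ≠ 0) (hz : ev ρ z = Matrix.scalar (Fin n) w) (hb : ev ρ b = 1) (k : ℕ) :
    (mulF z)^[k] b ≠ 0 := by
  intro h
  have hn : NeZero n := ⟨hρ.1.ne'⟩
  have h1 := ev_iter ρ z b k
  rw [h, hz, hb, mul_one, ← map_pow] at h1
  have h2 : ev ρ (0 : N → F) = 0 := by
    unfold ev
    simp
  rw [h2] at h1
  have h3 : Matrix.scalar (Fin n) (w ^ k) = Matrix.scalar (Fin n) (0 : F) := by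
    rw [← h1, map_zero]
  exact pow_ne_zero k hw (Matrix.scalar_inj.1 h3)

/-- a class sum with nonzero coefficient which is not nilpotent under the block -/
theorem exists_class {n : ℕ} {ρ : N →* Matrix (Fin n) (Fin n) F} (hρ : IsIrr ρ) {b : N → F}
    (hb : IsCl b) (h1 : ev ρ b = 1) :
    ∃ x : N, b x ≠ 0 ∧ ∃ w : F, w ≠ 0 ∧ ev ρ (clsum F ⊤ x) = Matrix.scalar (Fin n) w := by
  classical
  have := Fintype.ofFinite (ConjClasses N)
  have hn : NeZero n := ⟨hρ.1.ne'⟩
  by_contra hcon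
  push Not at hcon
  have h2 : ev ρ b = 0 := by
    conv_lhs => rw [cl_expand hb]
    rw [ev_lin]
    refine Finset.sum_eq_zero fun K _ => ?_
    by_cases h0 : b (Quotient.out K) = 0
    · rw [h0, zero_smul]
    · obtain ⟨w, hw, -, -⟩ := H20.eig F N n ρ hρ _ (clsum_cl (Quotient.out K))
      by_cases hw0 : w = 0
      · rw [hw, hw0, map_zero, smul_zero]
      · exact absurd hw (hcon _ h0 w hw0)
  rw [h1] at h2
  have h3 : Matrix.scalar (Fin n) (1 : F) = Matrix.scalar (Fin n) (0 : F) := by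
    rw [map_one, map_zero, h2]
  exact one_ne_zero (Matrix.scalar_inj.1 h3)

/-- traces are combinations of class sums of defect zero -/
theorem prC_trace {ℓ : ℕ} [Fact ℓ.Prime] [CharP F ℓ] (a : N → F) :
    PrC ℓ (fun y => ∑ᶠ n : N, a (n⁻¹ * y * n)) := by
  classical
  have hfin := Fintype.ofFinite N
  refine ⟨?_, ?_⟩
  · intro y g
    show ∑ᶠ n : N, a (n⁻¹ * (g * y * g⁻¹) * n) = ∑ᶠ n : N, a (n⁻¹ * y * n)
    rw [finsum_eq_sum_of_fintype, finsum_eq_sum_of_fintype]
    refine Fintype.sum_equiv (Equiv.mulLeft g⁻¹) _ _ fun n => ?_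
    show a (n⁻¹ * (g * y * g⁻¹) * n) = a ((g⁻¹ * n)⁻¹ * y * (g⁻¹ * n))
    congr 1
    group
  · intro y hy
    obtain ⟨c, hc⟩ := exists_prime_orderOf_dvd_card' ℓ hy
    let R : Subgroup N := Subgroup.zpowers (c : N)
    have hc1 : orderOf (c : N) = ℓ := by
      rw [← hc]
      exact (orderOf_injective (Subgroup.centralizer ({y} : Set N)).subtype
        (Subgroup.subtype_injective _) c)
    have hRcard : Nat.card R = ℓ := by rw [Nat.card_zpowers, hc1]
    have hR : IsPGroup ℓ R := IsPGroup.of_card (n := 1) (by rw [hRcard, pow_one])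
    have hRC : R ≤ Subgroup.centralizer ({y} : Set N) := by
      rw [Subgroup.zpowers_le]
      exact c.2
    show ∑ᶠ n : N, a (n⁻¹ * y * n) = 0
    rw [finsum_eq_sum_of_fintype,
      Pool.Agent.PP.H74.orbit_sum_ring (T := N) hR (fun n => a (n⁻¹ * y * n)) (by
        intro r n
        have h1 : (r : N) * y = y * r := Subgroup.mem_centralizer_singleton_iff.1 (hRC r.2)
        show a (((r : N) * n)⁻¹ * y * ((r : N) * n)) = a (n⁻¹ * y * n)
        congr 1
        calc ((r : N) * n)⁻¹ * y * ((r : N) * n) = n⁻¹ * (r : N)⁻¹ * (y * r) * n := by group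
          _ = n⁻¹ * (r : N)⁻¹ * (r * y) * n := by rw [h1]
          _ = _ := by group)]
    refine Finset.sum_eq_zero fun n hn => ?_
    exfalso
    rw [Finset.mem_filter] at hn
    have h2 := hn.2 ⟨(c : N), Subgroup.mem_zpowers _⟩
    have h3 : (c : N) * n = n := h2
    have h4 : (c : N) = 1 := mul_eq_right.1 h3
    rw [h4, orderOf_one] at hc1
    exact (Fact.out : ℓ.Prime).one_lt.ne hc1

theorem ev_trace_sum {n : ℕ} (ρ : N →* Matrix (Fin n) (Fin n) F) (a : N → F) :
    ev ρ (fun y => ∑ᶠ g : N, a (g⁻¹ * y * g)) = ∑ᶠ g : N, ρ g * ev ρ a * ρ g⁻¹ := by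
  have := Fintype.ofFinite N
  unfold ev
  simp only [finsum_eq_sum_of_fintype, Finset.sum_smul]
  rw [Finset.sum_comm]
  refine Finset.sum_congr rfl fun g _ => ?_
  rw [Finset.mul_sum, Finset.sum_mul]
  refine Fintype.sum_equiv (MulAut.conj g⁻¹).toEquiv _ _ fun y => ?_
  show a (g⁻¹ * y * g) • ρ y = ρ g * (a (g⁻¹ * y * g⁻¹⁻¹) • ρ (g⁻¹ * y * g⁻¹⁻¹)) * ρ g⁻¹
  rw [inv_inv, mul_smul_comm, smul_mul_assoc, ← map_mul, ← map_mul]
  congr 2
  group

end cls

/-! ### Sylow subgroups of subgroups -/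

section syl

variable {ℓ : ℕ} [Fact ℓ.Prime] {G : Type} [Group G] [Finite G]

theorem syl_exists (C : Subgroup G) : ∃ P : Subgroup G, P ≤ C ∧ IsPGroup ℓ P ∧
    ¬ ℓ ∣ P.relIndex C ∧ ∀ Q ≤ C, IsPGroup ℓ Q → ∃ c ∈ C, Q ≤ conjS c P := by
  obtain ⟨P₀⟩ : Nonempty (Sylow ℓ C) := inferInstance
  refine ⟨P₀.1.map C.subtype, Subgroup.map_subtype_le _, P₀.isPGroup'.map _, ?_, ?_⟩
  · unfold Subgroup.relIndex
    have h1 : (P₀.1.map C.subtype).subgroupOf C = P₀.1 :=
      Subgroup.comap_map_eq_self_of_injective C.subtype_injective _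
    rw [h1]
    exact P₀.not_dvd_index
  · intro Q hQC hQ
    obtain ⟨Q₀, hQ₀⟩ := (hQ.of_equiv (Subgroup.subgroupOfEquivOfLe hQC).symm :
      IsPGroup ℓ (Q.subgroupOf C)).exists_le_sylow
    obtain ⟨c, hc⟩ := MulAction.exists_smul_eq C P₀ Q₀
    refine ⟨c, c.2, ?_⟩
    intro q hq
    have h1 : (⟨q, hQC hq⟩ : C) ∈ Q₀ := hQ₀ hq
    rw [← hc] at h1
    have h2 : (⟨q, hQC hq⟩ : C) ∈ (P₀.1 : Subgroup C).map (MulAut.conj c).toMonoidHom := h1
    obtain ⟨y, hy, hyq⟩ := h2
    refine ⟨y, ⟨y, hy, rfl⟩, ?_⟩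
    exact congrArg Subtype.val hyq

theorem conjS_mul (g h : G) (A : Subgroup G) : conjS g (conjS h A) = conjS (g * h) A := by
  ext x
  simp only [mem_conjS, mul_inv_rev, mul_assoc]

theorem conjS_one (A : Subgroup G) : conjS 1 A = A := by
  ext x
  simp [mem_conjS]

theorem le_conjS_iff {g : G} {A B : Subgroup G} : A ≤ conjS g B ↔ conjS g⁻¹ A ≤ B := by
  rw [← conjS_mono (g := g) (D := conjS g⁻¹ A), conjS_mul, mul_inv_cancel, conjS_one]

theorem centralizer_conj (x n : G) {N : Subgroup G} (hn : n ∈ N) :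
    Subgroup.centralizer ({n * x * n⁻¹} : Set G) ⊓ N =
      conjS n (Subgroup.centralizer ({x} : Set G) ⊓ N) := by
  ext g
  rw [mem_conjS, Subgroup.mem_inf, Subgroup.mem_inf, Subgroup.mem_centralizer_singleton_iff,
    Subgroup.mem_centralizer_singleton_iff]
  constructor
  · rintro ⟨h1, h2⟩
    refine ⟨?_, N.mul_mem (N.mul_mem (N.inv_mem hn) h2) hn⟩
    calc n⁻¹ * g * n * x = n⁻¹ * (g * (n * x * n⁻¹)) * n := by group
      _ = n⁻¹ * (n * x * n⁻¹ * g) * n := by rw [h1]
      _ = x * (n⁻¹ * g * n) := by group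
  · rintro ⟨h1, h2⟩
    constructor
    · calc g * (n * x * n⁻¹) = n * (n⁻¹ * g * n * x) * n⁻¹ := by group
        _ = n * (x * (n⁻¹ * g * n)) * n⁻¹ := by rw [h1]
        _ = n * x * n⁻¹ * g := by group
    · have h3 := N.mul_mem (N.mul_mem hn h2) (N.inv_mem hn)
      have h4 : n * (n⁻¹ * g * n) * n⁻¹ = g := by group
      rwa [h4] at h3

end syl

/-! ### The main theorem -/

section main

variable {ℓ : ℕ} [Fact ℓ.Prime] {F : Type} [Field F] {G : Type} [Group G] [Finite G]
  {N : Subgroup G}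

theorem ext0_clsum' (x : N) : ext0 N (clsum F (⊤ : Subgroup N) x) = clsum F N (x : G) := by
  classical
  funext y
  by_cases hy : y ∈ N
  · rw [H46.ext0_of_mem _ hy]
    unfold clsum
    have hiff : (∃ q ∈ (⊤ : Subgroup N), (⟨y, hy⟩ : N) = q * x * q⁻¹) ↔
        ∃ q ∈ N, y = q * (x : G) * q⁻¹ := by
      constructor
      · rintro ⟨q, _, h⟩
        exact ⟨q, q.2, congrArg Subtype.val h⟩
      · rintro ⟨q, hq, h⟩
        exact ⟨⟨q, hq⟩, Subgroup.mem_top _, Subtype.ext h⟩
    by_cases h : ∃ q ∈ N, y = q * (x : G) * q⁻¹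
    · rw [if_pos h, if_pos (hiff.2 h)]
    · rw [if_neg h, if_neg (fun h' => h (hiff.1 h'))]
  · rw [H46.ext0_of_not_mem _ hy]
    unfold clsum
    rw [if_neg]
    rintro ⟨q, hq, rfl⟩
    exact hy (mul_mem (mul_mem hq x.2) (inv_mem hq))

theorem ext0_inv {a : N → F} (ha : IsCl a) {n : G} (hn : n ∈ N) (y : G) :
    ext0 N a (n * y * n⁻¹) = ext0 N a y := by
  by_cases hy : y ∈ N
  · have h1 : n * y * n⁻¹ ∈ N := N.mul_mem (N.mul_mem hn hy) (N.inv_mem hn)
    rw [H46.ext0_of_mem _ hy, H46.ext0_of_mem _ h1]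
    exact ha ⟨y, hy⟩ ⟨n, hn⟩
  · have h1 : n * y * n⁻¹ ∉ N := by
      intro h
      apply hy
      have h2 := N.mul_mem (N.mul_mem (N.inv_mem hn) h) hn
      have h3 : n⁻¹ * (n * y * n⁻¹) * n = y := by group
      rwa [h3] at h2
    rw [H46.ext0_of_not_mem _ hy, H46.ext0_of_not_mem _ h1]

theorem card_cent (x : N) : Nat.card (Subgroup.centralizer ({x} : Set N)) =
    Nat.card (Subgroup.centralizer ({(x : G)} : Set G) ⊓ N : Subgroup G) := by
  have h1 : (Subgroup.centralizer ({x} : Set N)).map N.subtype =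
      Subgroup.centralizer ({(x : G)} : Set G) ⊓ N := by
    ext g
    rw [Subgroup.mem_map, Subgroup.mem_inf, Subgroup.mem_centralizer_singleton_iff]
    constructor
    · rintro ⟨y, hy, rfl⟩
      rw [Subgroup.mem_centralizer_singleton_iff] at hy
      exact ⟨congrArg Subtype.val hy, y.2⟩
    · rintro ⟨h2, h3⟩
      refine ⟨⟨g, h3⟩, ?_, rfl⟩
      rw [Subgroup.mem_centralizer_singleton_iff]
      exact Subtype.ext h2
  rw [← h1, Subgroup.card_map_of_injective N.subtype_injective]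

/-- the irreducible representations over `b` are not traces -/
theorem npj_of (hinv : InvStmt) (hF : GoodF ℓ F) {b : N → F} (hblk : IsBlk b) (hdz : ¬ DZ ℓ b)
    (k : ℕ) (τ : N →* Matrix (Fin k) (Fin k) F) (hτ : IsIrr τ) (hτb : ev τ b = 1)
    (ψ : Matrix (Fin k) (Fin k) F) : ∑ᶠ n : N, τ n * ψ * τ n⁻¹ ≠ 1 := by
  intro h1
  have hchar := hF.char
  apply hdz
  -- the matrix comes from the group ring
  obtain ⟨a, ha⟩ : ∃ a : N → F, ev τ a = ψ := by
    have h2 := (H20.lift_surjective τ).2 hτ.2 ψ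
    obtain ⟨y, hy⟩ := h2
    obtain ⟨a, rfl⟩ := H20.toMA_surjective y
    exact ⟨a, by rw [← H20.lift_toMA]; exact hy⟩
  have hprc := prC_trace (ℓ := ℓ) a
  have hev : ev τ (fun y => ∑ᶠ g : N, a (g⁻¹ * y * g)) = 1 := by
    rw [ev_trace_sum, ha]
    exact h1
  have hsc : ev τ (fun y => ∑ᶠ g : N, a (g⁻¹ * y * g)) = Matrix.scalar (Fin k) (1 : F) := by
    rw [hev, map_one]
  obtain ⟨u, hu, hub⟩ := hinv ℓ F hF N b _ hblk hprc.1
    (not_nil hτ one_ne_zero hsc hτb)
  have h3 := (H20.pci ℓ F hF N _ u hprc hu).2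
  have h4 := (H20.pci ℓ F hF N _ b h3 hblk.1.1).1
  rw [hub] at h4
  exact dz_of_prC h4

/-- CLD: existence of the defect group of a stable block of defect one -/
theorem cld (hinv : InvStmt) : CldStmt := by
  intro ℓ _ F _ hF G _ _ N hN b hbcl hbN hblk hdz hsmall
  classical
  have hchar := hF.char
  have hℓ : ℓ.Prime := Fact.out
  obtain ⟨n, ρ, hρ, hρb⟩ := H20.blk_rep hF hblk.1 hblk.2.1
  obtain ⟨x, hbx, w, hw, hwx⟩ := exists_class hρ hblk.1.1 hρb
  obtain ⟨u, hu, hub⟩ := hinv ℓ F hF N (fun t : N => b t) (clsum F ⊤ x) hblk (clsum_cl x)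
    (not_nil hρ hw hwx hρb)
  have hzub : mulF (clsum F ⊤ x) (mulF u (fun t : N => b t)) = fun t : N => b t := by
    rw [← mulF_assoc, ← H20.mulF_comm_of_cl hblk.1.1, hub]
  have hucl : IsCl (mulF u (fun t : N => b t)) := H20.isCl_mulF hu hblk.1.1
  set V : G → F := ext0 N (mulF u (fun t : N => b t)) with hV
  have hKV : mulF (clsum F N (x : G)) V = b := by
    rw [← ext0_clsum', hV, ← H46.ext0_mul, hzub, H46.ext0_restr hbN]
  have hVN : ∀ y, y ∉ N → V y = 0 := fun y hy => H46.ext0_of_not_mem _ hy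
  have hVi : ∀ m ∈ N, ∀ y, V (m * y * m⁻¹) = V y := fun m hm y => ext0_inv hucl hm y
  have hKi : ∀ m ∈ N, ∀ y, clsum F N (x : G) (m * y * m⁻¹) = clsum F N (x : G) y := by
    intro m hm y
    rw [← ext0_clsum']
    exact ext0_inv (clsum_cl x) hm y
  set C : Subgroup G := Subgroup.centralizer ({(x : G)} : Set G) ⊓ N with hC
  obtain ⟨P, hPC, hPp, hPidx, hPsyl⟩ := syl_exists (ℓ := ℓ) C
  have hPN : P ≤ N := hPC.trans inf_le_right
  have hxP : (x : G) ∈ Subgroup.centralizer (P : Set G) := by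
    rw [Subgroup.mem_centralizer_iff]
    intro p hp
    exact Subgroup.mem_centralizer_singleton_iff.1 (hPC hp).1
  have hcard_le : Nat.card P ≤ ℓ := by
    refine hsmall P hPN hPp fun h => hbx ?_
    have h1 := congrFun h (x : G)
    rw [H66.br_of_mem hxP] at h1
    exact h1
  have hcard : Nat.card P = ℓ := by
    obtain ⟨k, hk⟩ := IsPGroup.iff_card.1 hPp
    rcases k with _ | _ | k
    · exfalso
      apply hdz
      rw [pow_zero] at hk
      have hPbot : P = ⊥ := Subgroup.card_eq_one.1 hk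
      rw [hPbot, Subgroup.relIndex_bot_left] at hPidx
      rw [hC, ← card_cent] at hPidx
      have h1 := (H20.pci ℓ F hF N _ _ (prC_clsum (F := F) hPidx) hucl).2
      rw [hzub] at h1
      exact dz_of_prC h1
    · rw [hk, zero_add, pow_one]
    · exfalso
      rw [hk] at hcard_le
      have h1 : ℓ ^ 1 < ℓ ^ (k + 1 + 1) := Nat.pow_lt_pow_right hℓ.one_lt (by omega)
      rw [pow_one] at h1
      omega
  -- the Brauer maps
  have hbrk : ∀ Q : Subgroup G, Q ≤ N → IsPGroup ℓ Q → br Q b ≠ 0 →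
      ∃ m ∈ N, Q ≤ conjS m P := by
    intro Q hQN hQ hbr
    have h1 : br Q b = mulF (br Q (clsum F N (x : G))) (br Q V) := by
      rw [← hKV]
      exact H66.br_mulF hF hQ (fun q hq t => hKi q (hQN hq) t) (fun q hq t => hVi q (hQN hq) t)
    have h2 : br Q (clsum F N (x : G)) ≠ 0 := by
      intro h
      apply hbr
      rw [h1, h]
      funext y
      unfold mulF
      simp
    obtain ⟨y, hy⟩ := Function.ne_iff.1 h2
    have hyQ : y ∈ Subgroup.centralizer (Q : Set G) := by
      by_contra h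
      exact hy (H66.br_of_not_mem h)
    rw [H66.br_of_mem hyQ] at hy
    have hex : ∃ q ∈ N, y = q * (x : G) * q⁻¹ := by
      by_contra h
      apply hy
      unfold clsum
      rw [if_neg h]
      rfl
    obtain ⟨m, hm, rfl⟩ := hex
    have h3 : Q ≤ conjS m C := by
      rw [hC, ← centralizer_conj (x : G) m hm]
      intro q hq
      refine ⟨Subgroup.mem_centralizer_singleton_iff.2 ?_, hQN hq⟩
      exact Subgroup.mem_centralizer_iff.1 hyQ q hq
    rw [le_conjS_iff] at h3
    obtain ⟨c, hc, h4⟩ := hPsyl _ h3 (conjS_pgroup hQ)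
    refine ⟨m * c, N.mul_mem hm hc.2, ?_⟩
    rw [← conjS_mul, le_conjS_iff]
    exact h4
  have hbru : ∀ Q : Subgroup G, Q ≤ N → IsPGroup ℓ Q → br Q b ≠ 0 →
      Q = ⊥ ∨ ∃ m ∈ N, Q = conjS m P := by
    intro Q hQN hQ hbr
    obtain ⟨m, hm, h1⟩ := hbrk Q hQN hQ hbr
    have h2 : Nat.card (conjS m P) = ℓ := by rw [card_conjS, hcard]
    have h3 : Nat.card Q ∣ ℓ := by
      rw [← h2]
      exact Subgroup.card_dvd_of_le h1
    rcases (Nat.dvd_prime hℓ).1 h3 with h4 | h4
    · exact Or.inl (Subgroup.card_eq_one.1 h4)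
    · refine Or.inr ⟨m, hm, ?_⟩
      exact Subgroup.eq_of_le_of_card_ge h1 (by rw [h2, h4])
  have hPbot : P ≠ ⊥ := by
    intro h
    rw [h, Subgroup.card_bot] at hcard
    exact hℓ.one_lt.ne hcard
  -- Frattini
  have hfrat : N ⊔ Subgroup.normalizer (P : Set G) = ⊤ := by
    rw [eq_top_iff]
    intro g _
    have h1 : conjS g P ≤ N := by
      intro y hy
      rw [mem_conjS] at hy
      have h2 := hN.conj_mem _ (hPN hy) g
      have h3 : g * (g⁻¹ * y * g) * g⁻¹ = y := by group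
      rwa [h3] at h2
    have h2 : br (conjS g P) b ≠ 0 := by
      intro h
      apply hbx
      have h3 : g * (x : G) * g⁻¹ ∈ Subgroup.centralizer (conjS g P : Set G) := by
        rw [Subgroup.mem_centralizer_iff]
        intro y hy
        have hy' : g⁻¹ * y * g ∈ P := mem_conjS.1 hy
        have h4 := Subgroup.mem_centralizer_iff.1 hxP _ hy'
        calc y * (g * (x : G) * g⁻¹) = g * (g⁻¹ * y * g * x) * g⁻¹ := by group
          _ = g * (x * (g⁻¹ * y * g)) * g⁻¹ := by rw [h4]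
          _ = g * x * g⁻¹ * y := by group
      have h5 := congrFun h (g * (x : G) * g⁻¹)
      rw [H66.br_of_mem h3, hbcl] at h5
      exact h5
    rcases hbru _ h1 (conjS_pgroup hPp) h2 with h3 | ⟨m, hm, h3⟩
    · exfalso
      have h4 := card_conjS g P
      rw [h3, Subgroup.card_bot, hcard] at h4
      exact hℓ.one_lt.ne h4
    · have h4 : m⁻¹ * g ∈ Subgroup.normalizer (P : Set G) := by
        rw [mem_normalizer_iff_conjS, ← conjS_mul, h3, conjS_mul, inv_mul_cancel, conjS_one]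
      have h5 : g = m * (m⁻¹ * g) := (mul_inv_cancel_left m g).symm
      rw [h5]
      exact mul_mem (Subgroup.mem_sup_left hm) (Subgroup.mem_sup_right h4)
  -- the idempotent
  have hidem : IsIdem b := by
    refine ⟨hbcl, ?_⟩
    have h1 := hblk.1.2
    rw [← H46.ext0_restr hbN, ← H46.ext0_mul, h1]
  have hidx0 : ∀ m : ℕ, ¬ ℓ ∣ m → (m : F) ≠ 0 := by
    intro m hm h
    exact hm ((CharP.cast_eq_zero_iff F ℓ m).1 h)
  have hprj : PrjB N P b := by
    have h1 := prj_of (F := F) x.2 (P := P) (by rw [← hC]; exact hPC)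
      (by rw [← hC]; exact hidx0 _ hPidx) hVN hVi
    rw [hKV] at h1
    exact h1
  -- the normaliser
  set N₁ : Subgroup G := N ⊓ Subgroup.normalizer (P : Set G) with hN₁
  have hcentN : Subgroup.centralizer (P : Set G) ≤ Subgroup.normalizer (P : Set G) := by
    intro g hg
    rw [Subgroup.mem_normalizer_iff]
    intro p
    have h2 := Subgroup.mem_centralizer_iff.1 hg
    constructor
    · intro hp
      rw [← h2 p hp, mul_inv_cancel_right]
      exact hp
    · intro hp
      have h3 := h2 _ hp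
      have h4 : g * p * g⁻¹ = p := by
        have h5 : g * p = g * (g * p * g⁻¹) := by rw [← h3, inv_mul_cancel_right]
        exact (mul_left_cancel h5).symm
      rwa [h4] at hp
  have hbrN₁ : ∀ m ∈ Subgroup.normalizer (P : Set G), ∀ y,
      (m * y * m⁻¹ ∈ Subgroup.centralizer (P : Set G) ↔
        y ∈ Subgroup.centralizer (P : Set G)) := by
    intro m hm y
    have h1 := Subgroup.mem_normalizer_iff.1 hm
    have h2 := Subgroup.mem_normalizer_iff.1 (inv_mem hm)
    rw [Subgroup.mem_centralizer_iff, Subgroup.mem_centralizer_iff]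
    constructor
    · intro h p hp
      have h3 := h _ ((h1 p).1 hp)
      calc p * y = m⁻¹ * ((m * p * m⁻¹) * (m * y * m⁻¹)) * m := by group
        _ = m⁻¹ * ((m * y * m⁻¹) * (m * p * m⁻¹)) * m := by rw [h3]
        _ = y * p := by group
    · intro h p hp
      have h3 := h _ ((h2 p).1 hp)
      rw [inv_inv] at h3
      calc p * (m * y * m⁻¹) = m * ((m⁻¹ * p * m) * y) * m⁻¹ := by group
        _ = m * (y * (m⁻¹ * p * m)) * m⁻¹ := by rw [h3]
        _ = m * y * m⁻¹ * p := by group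
  have hbrK : br P (clsum F N (x : G)) = clsum F N₁ (x : G) := by
    funext y
    by_cases hy : y ∈ Subgroup.centralizer (P : Set G)
    · rw [H66.br_of_mem hy]
      unfold clsum
      have hiff : (∃ q ∈ N, y = q * (x : G) * q⁻¹) ↔ ∃ q ∈ N₁, y = q * (x : G) * q⁻¹ := by
        constructor
        · rintro ⟨m, hm, rfl⟩
          have h3 : P ≤ conjS m C := by
            rw [hC, ← centralizer_conj (x : G) m hm]
            intro q hq
            refine ⟨Subgroup.mem_centralizer_singleton_iff.2 ?_, hPN hq⟩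
            exact Subgroup.mem_centralizer_iff.1 hy q hq
          rw [le_conjS_iff] at h3
          obtain ⟨c, hc, h4⟩ := hPsyl _ h3 (conjS_pgroup hPp)
          have h5 : conjS m⁻¹ P = conjS c P :=
            Subgroup.eq_of_le_of_card_ge h4 (by rw [card_conjS, card_conjS])
          have h6 : conjS (m * c) P = P := by
            rw [← conjS_mul, ← h5, conjS_mul, mul_inv_cancel, conjS_one]
          refine ⟨m * c, ⟨N.mul_mem hm hc.2, mem_normalizer_iff_conjS.2 h6⟩, ?_⟩
          have h7 : c * (x : G) = x * c := Subgroup.mem_centralizer_singleton_iff.1 hc.1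
          calc m * (x : G) * m⁻¹ = m * (x * c) * c⁻¹ * m⁻¹ := by group
            _ = m * (c * x) * c⁻¹ * m⁻¹ := by rw [h7]
            _ = m * c * x * (m * c)⁻¹ := by group
        · rintro ⟨m, hm, h⟩
          exact ⟨m, hm.1, h⟩
      by_cases h : ∃ q ∈ N, y = q * (x : G) * q⁻¹
      · rw [if_pos h, if_pos (hiff.1 h)]
      · rw [if_neg h, if_neg (fun h' => h (hiff.2 h'))]
    · rw [H66.br_of_not_mem hy]
      unfold clsum
      rw [if_neg]
      rintro ⟨m, hm, rfl⟩
      exact hy ((hbrN₁ m hm.2 _).2 hxP)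
  have hprj1 : PrjB N₁ P (br P b) := by
    have hPC1 : P ≤ Subgroup.centralizer ({(x : G)} : Set G) ⊓ N₁ := by
      intro p hp
      exact ⟨(hPC hp).1, hPN hp, Subgroup.le_normalizer hp⟩
    have hC1C : Subgroup.centralizer ({(x : G)} : Set G) ⊓ N₁ ≤ C := by
      intro p hp
      exact ⟨hp.1, hp.2.1⟩
    have hidx1 : ¬ ℓ ∣ P.relIndex (Subgroup.centralizer ({(x : G)} : Set G) ⊓ N₁) := by
      intro h
      apply hPidx
      rw [← Subgroup.relIndex_mul_relIndex _ _ _ hPC1 hC1C]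
      exact h.mul_right _
    have h1 := prj_of (F := F) (N := N₁) (P := P) (x := (x : G)) (V := br P V)
      ⟨x.2, hcentN hxP⟩ hPC1 (hidx0 _ hidx1)
      (by
        intro y hy
        by_cases hyc : y ∈ Subgroup.centralizer (P : Set G)
        · rw [H66.br_of_mem hyc]
          apply hVN
          intro h
          exact hy ⟨h, hcentN hyc⟩
        · exact H66.br_of_not_mem hyc)
      (by
        intro m hm y
        by_cases hyc : y ∈ Subgroup.centralizer (P : Set G)
        · rw [H66.br_of_mem hyc, H66.br_of_mem ((hbrN₁ m hm.2 y).2 hyc)]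
          exact hVi m hm.1 y
        · rw [H66.br_of_not_mem hyc, H66.br_of_not_mem (fun h => hyc ((hbrN₁ m hm.2 y).1 h))])
    rw [← hbrK, ← H66.br_mulF hF hPp (fun q hq t => hKi q (hPN hq) t)
      (fun q hq t => hVi q (hPN hq) t), hKV] at h1
    exact h1
  refine ⟨P, ⟨hN, hcard, hPN, hidem, hbN, hfrat, hprj, hprj1, ?_⟩, ?_⟩
  · intro k τ hτ hτb ψ
    exact npj_of hinv hF hblk hdz k τ hτ hτb ψ
  · intro Q hQN hQ hbr
    rcases hbru Q hQN hQ hbr with h | ⟨m, -, h⟩
    · exact Or.inl h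
    · exact Or.inr ⟨m, h⟩

end main

end Pool.Agent.PP.D1H51
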