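import Pool.Agent.Helper66_D1.Stmts

/-!
# Squad PP, part D1: weights and class sums
-/

open scoped BigOperators

set_option linter.unusedSectionVars false

noncomputable section

namespace Pool.Agent.PP.D1H51

open Pool.Agent.Helper51_AWC Pool.Agent.Helper79_WRA Pool.Agent.PP

section

variable {F : Type} [Field F] {G : Type} [Group G] [Finite G]

/-- weights exist -/
theorem exists_w (F : Type) [Field F] {N P : Subgroup G} (hPN : P ≤ N) :
    ∃ c : G → F, IsW N P c := by
  classical
  refine ⟨fun g => if g ∈ N ∧ (QuotientGroup.mk g : G ⧸ P).out = g then 1 else 0, ?_, ?_⟩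
  · intro g hg
    exact if_neg fun h => hg h.1
  · intro g hg
    have h1 : (QuotientGroup.mk g : G ⧸ P) =
        QuotientGroup.mk ((QuotientGroup.mk g : G ⧸ P).out) := (QuotientGroup.out_eq' _).symm
    have hr : g⁻¹ * (QuotientGroup.mk g : G ⧸ P).out ∈ P := QuotientGroup.eq.1 h1
    rw [finsum_eq_single _ ⟨g⁻¹ * (QuotientGroup.mk g : G ⧸ P).out, hr⟩]
    · have h2 : g * (g⁻¹ * (QuotientGroup.mk g : G ⧸ P).out) =
          (QuotientGroup.mk g : G ⧸ P).out := mul_inv_cancel_left _ _
      show (if g * (g⁻¹ * (QuotientGroup.mk g : G ⧸ P).out) ∈ N ∧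
        (QuotientGroup.mk (g * (g⁻¹ * (QuotientGroup.mk g : G ⧸ P).out)) : G ⧸ P).out =
          g * (g⁻¹ * (QuotientGroup.mk g : G ⧸ P).out) then (1 : F) else 0) = 1
      rw [h2, if_pos]
      refine ⟨?_, ?_⟩
      · rw [← h2]
        exact N.mul_mem hg (hPN hr)
      · rw [← h1]
    · intro p hp
      apply if_neg
      rintro ⟨-, h3⟩
      apply hp
      apply Subtype.ext
      have h4 : (QuotientGroup.mk (g * (p : G)) : G ⧸ P) = QuotientGroup.mk g :=
        QuotientGroup.mk_mul_of_mem g p.2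
      rw [h4] at h3
      show (p : G) = g⁻¹ * (QuotientGroup.mk g : G ⧸ P).out
      rw [h3, inv_mul_cancel_left]

/-- the sum of the weights over a coset of `C` -/
theorem w_sum {N P C : Subgroup G} (hPC : P ≤ C) (hCN : C ≤ N) {c : G → F} (hc : IsW N P c)
    {n : G} (hn : n ∈ N) : ∑ᶠ g : C, c (n * g) = (P.relIndex C : F) := by
  classical
  have hfC := Fintype.ofFinite C
  have hfq := Fintype.ofFinite (C ⧸ P.subgroupOf C)
  have hfp := Fintype.ofFinite (P.subgroupOf C)
  have hfP := Fintype.ofFinite P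
  have hbij : Function.Bijective (fun q : (C ⧸ P.subgroupOf C) × P.subgroupOf C =>
      (q.1.out * q.2 : C)) := by
    constructor
    · rintro ⟨q, p⟩ ⟨q', p'⟩ h
      have h0 : q.out * (p : C) = q'.out * p' := h
      have h1 : (QuotientGroup.mk (q.out * (p : C)) : C ⧸ P.subgroupOf C) = q := by
        rw [QuotientGroup.mk_mul_of_mem _ p.2, QuotientGroup.out_eq']
      have h2 : (QuotientGroup.mk (q'.out * (p' : C)) : C ⧸ P.subgroupOf C) = q' := by
        rw [QuotientGroup.mk_mul_of_mem _ p'.2, QuotientGroup.out_eq']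
      have h3 : q = q' := by rw [← h1, h0, h2]
      subst h3
      have h4 : (p : C) = p' := mul_left_cancel h0
      rw [Subtype.ext h4]
    · intro g
      have h1 : (QuotientGroup.mk g : C ⧸ P.subgroupOf C) =
          QuotientGroup.mk ((QuotientGroup.mk g : C ⧸ P.subgroupOf C).out) :=
        (QuotientGroup.out_eq' _).symm
      have hr : (QuotientGroup.mk g : C ⧸ P.subgroupOf C).out⁻¹ * g ∈ P.subgroupOf C :=
        QuotientGroup.eq.1 h1.symm
      refine ⟨⟨QuotientGroup.mk g, ⟨_, hr⟩⟩, ?_⟩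
      exact mul_inv_cancel_left _ _
  rw [finsum_eq_sum_of_fintype, ← Function.Bijective.sum_comp hbij (fun g : C => c (n * g)),
    Fintype.sum_prod_type]
  have hin : ∀ q : C ⧸ P.subgroupOf C,
      ∑ p : P.subgroupOf C, c (n * ((q.out * (p : C) : C) : G)) = 1 := by
    intro q
    have h1 := hc.sum (n * (q.out : C)) (N.mul_mem hn (hCN (q.out : C).2))
    rw [finsum_eq_sum_of_fintype] at h1
    rw [← h1]
    refine Fintype.sum_equiv (Subgroup.subgroupOfEquivOfLe hPC).toEquiv _ _ fun p => ?_
    show c (n * (((q.out : C) : G) * ((p : C) : G))) = c (n * ((q.out : C) : G) * ((p : C) : G))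
    rw [mul_assoc]
  rw [Finset.sum_congr rfl fun q _ => hin q, Finset.sum_const, nsmul_eq_mul, mul_one,
    Finset.card_univ, Subgroup.relIndex, Subgroup.index, Nat.card_eq_fintype_card]

/-- the class sum from the weights -/
theorem cls_w {N P : Subgroup G} {x : G}
    (hP : P ≤ Subgroup.centralizer ({x} : Set G) ⊓ N) {c : G → F} (hc : IsW N P c)
    [Fintype G] (k : G) [DecidableEq G] :
    ∑ g : G, (if g * x * g⁻¹ = k then c g else 0) =
      (P.relIndex (Subgroup.centralizer ({x} : Set G) ⊓ N) : F) * clsum F N x k := by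
  classical
  by_cases h : ∃ q ∈ N, k = q * x * q⁻¹
  · have hk : clsum F N x k = 1 := by
      unfold clsum
      rw [if_pos h]
    obtain ⟨q, hq, rfl⟩ := h
    rw [hk, mul_one, ← w_sum hP inf_le_right hc hq]
    have hfC := Fintype.ofFinite (Subgroup.centralizer ({x} : Set G) ⊓ N : Subgroup G)
    rw [finsum_eq_sum_of_fintype, ← Equiv.sum_comp (Equiv.mulLeft q)]
    have e1 : ∑ g : (Subgroup.centralizer ({x} : Set G) ⊓ N : Subgroup G), c (q * g) =
        ∑ g ∈ Finset.univ.filter
          (fun g : G => g ∈ (Subgroup.centralizer ({x} : Set G) ⊓ N : Subgroup G)),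
          c (q * g) := by
      symm
      apply Finset.sum_subtype
      intro g
      rw [Finset.mem_filter]
      exact ⟨fun h => h.2, fun h => ⟨Finset.mem_univ _, h⟩⟩
    rw [e1]
    symm
    have hcomm : ∀ g : G, q * g * x * (q * g)⁻¹ = q * x * q⁻¹ ↔
        g ∈ Subgroup.centralizer ({x} : Set G) := by
      intro g
      rw [Subgroup.mem_centralizer_singleton_iff]
      constructor
      · intro h
        calc g * x = q⁻¹ * (q * g * x * (q * g)⁻¹) * q * g := by group
          _ = q⁻¹ * (q * x * q⁻¹) * q * g := by rw [h]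
          _ = x * g := by group
      · intro h
        calc q * g * x * (q * g)⁻¹ = q * (g * x) * g⁻¹ * q⁻¹ := by group
          _ = q * (x * g) * g⁻¹ * q⁻¹ := by rw [h]
          _ = q * x * q⁻¹ := by group
    rw [Finset.sum_filter]
    refine Finset.sum_congr rfl fun g _ => ?_
    show (if g ∈ (Subgroup.centralizer ({x} : Set G) ⊓ N : Subgroup G) then c (q * g) else 0) =
      if q * g * x * (q * g)⁻¹ = q * x * q⁻¹ then c (q * g) else 0
    by_cases h1 : g ∈ Subgroup.centralizer ({x} : Set G)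
    · rw [if_pos ((hcomm g).2 h1)]
      by_cases h2 : g ∈ N
      · rw [if_pos ⟨h1, h2⟩]
      · rw [if_neg fun h => h2 h.2, hc.supp]
        intro h3
        apply h2
        have := N.mul_mem (N.inv_mem hq) h3
        rwa [inv_mul_cancel_left] at this
    · rw [if_neg fun h => h1 h.1, if_neg fun h => h1 ((hcomm g).1 h)]
  · have hk : clsum F N x k = 0 := by
      unfold clsum
      rw [if_neg h]
    rw [hk, mul_zero]
    refine Finset.sum_eq_zero fun g _ => ?_
    split_ifs with h1
    · apply hc.supp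
      intro hg
      exact h ⟨g, hg, h1.symm⟩
    · rfl

/-- products of class sums and invariant functions are relative traces -/
theorem prj_of {N P : Subgroup G} {x : G} (hx : x ∈ N)
    (hP : P ≤ Subgroup.centralizer ({x} : Set G) ⊓ N)
    (hm : (P.relIndex (Subgroup.centralizer ({x} : Set G) ⊓ N) : F) ≠ 0) {V : G → F}
    (hVN : ∀ y, y ∉ N → V y = 0) (hVi : ∀ n ∈ N, ∀ y, V (n * y * n⁻¹) = V y) :
    PrjB N P (mulF (clsum F N x) V) := by
  classical
  have hfG := Fintype.ofFinite G
  obtain ⟨c, hc⟩ := exists_w F (hP.trans inf_le_right)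
  set m : F := (P.relIndex (Subgroup.centralizer ({x} : Set G) ⊓ N) : F) with hmdef
  refine ⟨c, fun y => m⁻¹ * V (x⁻¹ * y), hc, ?_, ?_, ?_⟩
  · intro y hy
    show m⁻¹ * V (x⁻¹ * y) = 0
    rw [hVN, mul_zero]
    intro h
    apply hy
    have := N.mul_mem hx h
    rwa [mul_inv_cancel_left] at this
  · intro p hp y
    show m⁻¹ * V (x⁻¹ * (p * y * p⁻¹)) = m⁻¹ * V (x⁻¹ * y)
    have h1 : p * x = x * p := Subgroup.mem_centralizer_singleton_iff.1 (hP hp).1
    have h2 : x⁻¹ * (p * y * p⁻¹) = p * (x⁻¹ * y) * p⁻¹ := by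
      have h3 : x⁻¹ * p = p * x⁻¹ := by
        rw [inv_mul_eq_iff_eq_mul, ← mul_assoc, ← h1, mul_inv_cancel_right]
      calc x⁻¹ * (p * y * p⁻¹) = (x⁻¹ * p) * y * p⁻¹ := by group
        _ = (p * x⁻¹) * y * p⁻¹ := by rw [h3]
        _ = _ := by group
    rw [h2, hVi p (hP hp).2]
  · intro y
    rw [finsum_eq_sum_of_fintype]
    unfold mulF
    rw [finsum_eq_sum_of_fintype]
    have h1 : ∀ g : G, c g * (m⁻¹ * V (x⁻¹ * (g⁻¹ * y * g))) =
        ∑ k : G, (if g * x * g⁻¹ = k then c g else 0) * (m⁻¹ * V (k⁻¹ * y)) := by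
      intro g
      rw [Finset.sum_eq_single (g * x * g⁻¹)]
      · rw [if_pos rfl]
        by_cases hg : g ∈ N
        · congr 2
          rw [← hVi g hg (x⁻¹ * (g⁻¹ * y * g))]
          congr 1
          group
        · rw [hc.supp g hg, zero_mul, zero_mul]
      · intro k _ hk
        rw [if_neg (fun h => hk h.symm), zero_mul]
      · intro h
        exact absurd (Finset.mem_univ _) h
    rw [Finset.sum_congr rfl fun g _ => h1 g, Finset.sum_comm]
    refine Finset.sum_congr rfl fun k _ => ?_
    rw [← Finset.sum_mul, cls_w hP hc k, ← hmdef]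
    field_simp

end

end Pool.Agent.PP.D1H51
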