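import Pool.Agent.Helper66_D1.Stmts

/-!
# Squad PP, part D1, module CBD: the count over `b`
-/

open scoped BigOperators

set_option linter.unusedSectionVars false

noncomputable section

namespace Pool.Agent.PP.D1H51

open Pool.Agent.Helper51_AWC Pool.Agent.Helper79_WRA Pool.Agent.PP

theorem tr_ne {F H : Type} [Field F] [Group H] {n : ℕ} {ρ : H →* Matrix (Fin n) (Fin n) F}
    (hρ : IsIrr ρ) : ∃ g, tr ρ g ≠ 0 := by
  by_contra hcon
  push Not at hcon
  have h1 : Submodule.span F (Set.range ρ) ≤ LinearMap.ker (Matrix.traceLinearMap (Fin n) F F) := by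
    rw [Submodule.span_le]
    rintro _ ⟨g, rfl⟩
    exact hcon g
  rw [hρ.2] at h1
  let i : Fin n := ⟨0, hρ.1⟩
  have h2 : (Matrix.single i i (1 : F)).trace = 0 :=
    h1 (Submodule.mem_top (x := Matrix.single i i (1 : F)))
  rw [Matrix.trace_single_eq_same] at h2
  exact one_ne_zero h2

theorem act_one_iff (heig : EigStmt) {F H : Type} [Field F] [Group H] [Finite H] {n : ℕ}
    {ρ : H →* Matrix (Fin n) (Fin n) F} (hρ : IsIrr ρ) {a : H → F} (ha : IsCl a) :
    actF a (tr ρ) = tr ρ ↔ ev ρ a = 1 := by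
  obtain ⟨w, h1, h2, -⟩ := heig F H n ρ hρ a ha
  constructor
  · intro h
    obtain ⟨g, hg⟩ := tr_ne hρ
    have h3 : w * tr ρ g = 1 * tr ρ g := by
      rw [one_mul]
      have h4 := congrFun (h2.symm.trans h) g
      exact h4
    rw [h1, mul_right_cancel₀ hg h3, map_one]
  · intro h
    have hn : NeZero n := ⟨hρ.1.ne'⟩
    have h3 : Matrix.scalar (Fin n) w = Matrix.scalar (Fin n) (1 : F) := by
      rw [← h1, h, map_one]
    rw [h2, Matrix.scalar_inj.1 h3, one_smul]

section

variable {ℓ : ℕ} {F : Type} [Field F] {G : Type} [Group G] {N P : Subgroup G} {b : G → F}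

theorem jN_injective (N L : Subgroup G) : Function.Injective (jN N L) := by
  intro a c h
  apply Subtype.ext
  apply Subtype.ext
  exact congrArg (fun t : N => (t : G)) h

/-- the Brauer map in `N` -/
theorem br_jN (hPN : P ≤ N) (b : G → F) (L : Subgroup G) (t : N.subgroupOf L) :
    br (P.subgroupOf N) (fun s : N => b s) (jN N L t) = br P b ((t : L) : G) := by
  unfold br
  by_cases h : ((t : L) : G) ∈ Subgroup.centralizer (P : Set G)
  · have h' : jN N L t ∈ Subgroup.centralizer ((P.subgroupOf N : Subgroup N) : Set N) := by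
      rw [Subgroup.mem_centralizer_iff] at h ⊢
      intro p hp
      exact Subtype.ext (h p hp)
    rw [if_pos h, if_pos h']
    rfl
  · have h' : jN N L t ∉ Subgroup.centralizer ((P.subgroupOf N : Subgroup N) : Set N) := by
      intro h2
      apply h
      rw [Subgroup.mem_centralizer_iff] at h2 ⊢
      intro p hp
      exact congrArg (fun s : N => (s : G)) (h2 ⟨p, hPN hp⟩ hp)
    rw [if_neg h, if_neg h']

theorem br_cl (P : Subgroup G) {b : G → F} (hb : IsCl b) :
    IsCl (fun t : Subgroup.normalizer (P : Set G) => br P b t) := by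
  intro x y
  have hiff : ((y * x * y⁻¹ : Subgroup.normalizer (P : Set G)) : G) ∈
      Subgroup.centralizer (P : Set G) ↔ (x : G) ∈ Subgroup.centralizer (P : Set G) := by
    have h1 := Subgroup.mem_normalizer_iff.1 y.2
    have h2 := Subgroup.mem_normalizer_iff.1 (inv_mem y.2)
    rw [Subgroup.mem_centralizer_iff, Subgroup.mem_centralizer_iff]
    push_cast
    constructor
    · intro h p hp
      have h3 := h _ ((h1 p).1 hp)
      calc p * (x : G) = (y : G)⁻¹ * (((y : G) * p * (y : G)⁻¹) * ((y : G) * x * (y : G)⁻¹)) *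
            y := by group
        _ = (y : G)⁻¹ * (((y : G) * x * (y : G)⁻¹) * ((y : G) * p * (y : G)⁻¹)) * y := by rw [h3]
        _ = x * p := by group
    · intro h p hp
      have h3 := h _ ((h2 p).1 hp)
      rw [inv_inv] at h3
      calc p * ((y : G) * x * (y : G)⁻¹) = (y : G) * (((y : G)⁻¹ * p * y) * x) * (y : G)⁻¹ := by
            group
        _ = (y : G) * (x * ((y : G)⁻¹ * p * y)) * (y : G)⁻¹ := by rw [h3]
        _ = (y : G) * x * (y : G)⁻¹ * p := by group
  show br P b ((y * x * y⁻¹ : Subgroup.normalizer (P : Set G)) : G) = br P b (x : G)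
  unfold br
  by_cases h : (x : G) ∈ Subgroup.centralizer (P : Set G)
  · rw [if_pos h, if_pos (hiff.2 h)]
    exact hb x y
  · rw [if_neg h, if_neg (fun h' => h (hiff.1 h'))]

variable [Fact ℓ.Prime] [Finite G]

theorem restr_cl (hb : IsCl b) : IsCl (fun t : N => b t) := fun x y => hb x y

theorem restr_cl' {H : Type} [Group H] {a : H → F} (ha : IsCl a) (K : Subgroup H) :
    IsCl (fun t : K => a t) := fun x y => ha x y

/-- corresponding characters lie over `b` and over `br_P b` simultaneously -/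
theorem cor_act (hebd : EbdStmt) (hrsd : RsdStmt) (heig : EigStmt) (hF : GoodF ℓ F)
    (hS : D1S ℓ N P b) {φ : N → F} {θ : N.subgroupOf (Subgroup.normalizer (P : Set G)) → F}
    (hc : CorD N P φ θ) :
    actF (fun t : N => b t) φ = φ ↔
      actF (fun t : N.subgroupOf (Subgroup.normalizer (P : Set G)) =>
        br P b ((t : Subgroup.normalizer (P : Set G)) : G)) θ = θ := by
  obtain ⟨hSN, hrange⟩ := hrsd ℓ F G N P b hS
  obtain ⟨n, σ, m, κ, π, hσ, rfl, hκ, rfl, hHV⟩ := hc
  have hcl : IsCl (fun t : N => b t) := restr_cl hS.idem.1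
  obtain ⟨c, h1, -, -⟩ := heig F N n σ hσ _ hcl
  have h2 := hebd ℓ F hF N (P.subgroupOf N) hSN.card
    (N.subgroupOf (Subgroup.normalizer (P : Set G))) (jN N (Subgroup.normalizer (P : Set G)))
    (jN_injective _ _) hrange n σ m κ π hκ hHV (fun t : N => b t) c hcl h1
  have h3 : (fun t : N.subgroupOf (Subgroup.normalizer (P : Set G)) =>
      br (P.subgroupOf N) (fun s : N => b s) (jN N (Subgroup.normalizer (P : Set G)) t)) =
      fun t : N.subgroupOf (Subgroup.normalizer (P : Set G)) =>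
        br P b ((t : Subgroup.normalizer (P : Set G)) : G) :=
    funext fun t => br_jN hS.le b _ t
  rw [h3] at h2
  have hcl' : IsCl (fun t : N.subgroupOf (Subgroup.normalizer (P : Set G)) =>
      br P b ((t : Subgroup.normalizer (P : Set G)) : G)) :=
    restr_cl' (br_cl P hS.idem.1) _
  rw [act_one_iff heig hσ hcl, act_one_iff heig hκ hcl', h1, h2]
  have hn : NeZero n := ⟨hσ.1.ne'⟩
  have hm : NeZero m := ⟨hκ.1.ne'⟩
  constructor
  · intro h
    have h4 : Matrix.scalar (Fin n) c = Matrix.scalar (Fin n) (1 : F) := by rw [h, map_one]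
    rw [Matrix.scalar_inj.1 h4, map_one]
  · intro h
    have h4 : Matrix.scalar (Fin m) c = Matrix.scalar (Fin m) (1 : F) := by rw [h, map_one]
    rw [Matrix.scalar_inj.1 h4, map_one]

/-- a character over `b` has a partner -/
theorem cor_ex (hird : IrdStmt) (hrsd : RsdStmt) (heig : EigStmt) (hF : GoodF ℓ F)
    (hS : D1S ℓ N P b) {φ : N → F} (hφ : φ ∈ IBr F N) (ha : actF (fun t : N => b t) φ = φ) :
    ∃ θ, CorD N P φ θ := by
  obtain ⟨hSN, hrange⟩ := hrsd ℓ F G N P b hS
  obtain ⟨n, σ, hσ, rfl⟩ := hφ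
  have h1 := (act_one_iff heig hσ (restr_cl hS.idem.1)).1 ha
  obtain ⟨m, κ, π, hκ, hHV⟩ := hird ℓ F hF N ⊤ (P.subgroupOf N) (fun t : N => b t) hSN
    (N.subgroupOf (Subgroup.normalizer (P : Set G))) (jN N (Subgroup.normalizer (P : Set G)))
    hrange n σ hσ h1
  exact ⟨tr κ, n, σ, m, κ, π, hσ, rfl, hκ, rfl, hHV⟩

theorem cor_ex' (hsud : SudStmt) (hrsd : RsdStmt) (heig : EigStmt) (hF : GoodF ℓ F)
    (hS : D1S ℓ N P b) {θ : N.subgroupOf (Subgroup.normalizer (P : Set G)) → F}
    (hθ : θ ∈ IBr F (N.subgroupOf (Subgroup.normalizer (P : Set G))))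
    (ha : actF (fun t : N.subgroupOf (Subgroup.normalizer (P : Set G)) =>
        br P b ((t : Subgroup.normalizer (P : Set G)) : G)) θ = θ) :
    ∃ φ, CorD N P φ θ := by
  obtain ⟨hSN, hrange⟩ := hrsd ℓ F G N P b hS
  obtain ⟨m, κ, hκ, rfl⟩ := hθ
  have hcl' : IsCl (fun t : N.subgroupOf (Subgroup.normalizer (P : Set G)) =>
      br P b ((t : Subgroup.normalizer (P : Set G)) : G)) :=
    restr_cl' (br_cl P hS.idem.1) _
  have h1 := (act_one_iff heig hκ hcl').1 ha
  have h3 : (fun t : N.subgroupOf (Subgroup.normalizer (P : Set G)) =>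
      br (P.subgroupOf N) (fun s : N => b s) (jN N (Subgroup.normalizer (P : Set G)) t)) =
      fun t : N.subgroupOf (Subgroup.normalizer (P : Set G)) =>
        br P b ((t : Subgroup.normalizer (P : Set G)) : G) :=
    funext fun t => br_jN hS.le b _ t
  obtain ⟨n, σ, π, hσ, -, hHV⟩ := hsud ℓ F hF N (P.subgroupOf N) (fun t : N => b t) hSN
    (N.subgroupOf (Subgroup.normalizer (P : Set G))) (jN N (Subgroup.normalizer (P : Set G)))
    (jN_injective _ _) hrange m κ hκ (by rw [h3]; exact h1)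
  exact ⟨tr σ, n, σ, m, κ, π, hσ, rfl, hκ, rfl, hHV⟩

theorem cor_right (hund : UndStmt) (hrsd : RsdStmt) (hF : GoodF ℓ F)
    (hS : D1S ℓ N P b) {φ : N → F} {θ θ' : N.subgroupOf (Subgroup.normalizer (P : Set G)) → F}
    (h : CorD N P φ θ) (h' : CorD N P φ θ') : θ = θ' := by
  obtain ⟨hSN, hrange⟩ := hrsd ℓ F G N P b hS
  obtain ⟨n, σ, m, κ, π, hσ, hφ, hκ, rfl, hHV⟩ := h
  obtain ⟨n', σ', m', κ', π', hσ', hφ', hκ', rfl, hHV'⟩ := h'
  exact hund ℓ F hF N (P.subgroupOf N) (N.subgroupOf (Subgroup.normalizer (P : Set G)))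
    (jN N (Subgroup.normalizer (P : Set G))) hrange n n' σ σ' hσ hσ' (hφ.trans hφ'.symm)
    m m' κ κ' π π' hκ hκ' hHV hHV'

theorem cor_left (hind : IndStmt) (hrsd : RsdStmt) (heig : EigStmt) (hF : GoodF ℓ F)
    (hS : D1S ℓ N P b) {φ φ' : N → F} {θ : N.subgroupOf (Subgroup.normalizer (P : Set G)) → F}
    (ha : actF (fun t : N => b t) φ = φ) (ha' : actF (fun t : N => b t) φ' = φ')
    (h : CorD N P φ θ) (h' : CorD N P φ' θ) : φ = φ' := by
  obtain ⟨hSN, hrange⟩ := hrsd ℓ F G N P b hS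
  obtain ⟨n, σ, m, κ, π, hσ, rfl, hκ, hθ, hHV⟩ := h
  obtain ⟨n', σ', m', κ', π', hσ', rfl, hκ', hθ', hHV'⟩ := h'
  have hcl : IsCl (fun t : N => b t) := restr_cl hS.idem.1
  exact hind ℓ F hF N ⊤ (P.subgroupOf N) (fun t : N => b t) hSN
    (N.subgroupOf (Subgroup.normalizer (P : Set G)))
    (jN N (Subgroup.normalizer (P : Set G))) hrange n n' σ σ' hσ hσ'
    ((act_one_iff heig hσ hcl).1 ha) ((act_one_iff heig hσ' hcl).1 ha')
    m m' κ κ' π π' hκ hκ' (hθ.trans hθ'.symm) hHV hHV'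

/-- corresponding characters lie in the sets of the counting lemma simultaneously -/
theorem mem_iff [N.Normal] (hind : IndStmt) (hund : UndStmt) (hebd : EbdStmt) (hrsd : RsdStmt)
    (hc3d : C3dStmt) (heig : EigStmt) (hF : GoodF ℓ F) (hS : D1S ℓ N P b) {φ : N → F}
    {θ : N.subgroupOf (Subgroup.normalizer (P : Set G)) → F} (hc : CorD N P φ θ)
    (x y : Subgroup.normalizer (P : Set G)) :
    φ ∈ phiSet N b (x : G) (y : G) ↔
      θ ∈ phiSet (N.subgroupOf (Subgroup.normalizer (P : Set G)))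
        (fun t : Subgroup.normalizer (P : Set G) => br P b t) x y := by
  have hact := cor_act hebd hrsd heig hF hS hc
  have hx : ∀ x : Subgroup.normalizer (P : Set G),
      actF (fun t : N => b t) φ = φ → ((∀ l, φ (MulAut.conjNormal (x : G) l) = φ l) ↔
        ∀ l, θ (MulAut.conjNormal x l) = θ l) := by
    intro x ha
    have h6 := hc3d F G N P hS.le φ θ hc x
    constructor
    · intro h l
      have h7 : (fun l => φ (MulAut.conjNormal (x : G) l)) = φ := funext h
      rw [h7] at h6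
      exact congrFun (cor_right hund hrsd hF hS h6 hc) l
    · intro h l
      have h7 : (fun l => θ (MulAut.conjNormal x l)) = θ := funext h
      rw [h7] at h6
      have h8 := (cor_act hebd hrsd heig hF hS h6).2 (hact.1 ha)
      exact congrFun (cor_left hind hrsd heig hF hS h8 ha h6 hc) l
  have hmem : φ ∈ IBr F N ∧ θ ∈ IBr F (N.subgroupOf (Subgroup.normalizer (P : Set G))) := by
    obtain ⟨n, σ, m, κ, π, hσ, hφ, hκ, hθ, -⟩ := hc
    exact ⟨⟨n, σ, hσ, hφ.symm⟩, m, κ, hκ, hθ.symm⟩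
  unfold phiSet
  constructor
  · rintro ⟨-, a2, a3, a4⟩
    exact ⟨hmem.2, hact.1 a2, (hx x a2).1 a3, (hx y a2).1 a4⟩
  · rintro ⟨-, a2, a3, a4⟩
    have a2' := hact.2 a2
    exact ⟨hmem.1, a2', (hx x a2').2 a3, (hx y a2').2 a4⟩

end

/-- CBD: the numbers of irreducible modular characters over `b` and over `br_P b` agree -/
theorem cbd (hcmq : CmqStmt) (hird : IrdStmt) (hind : IndStmt) (hund : UndStmt) (hebd : EbdStmt)
    (hsud : SudStmt) (hrsd : RsdStmt) (hc3d : C3dStmt) (hc4d : C4dStmt) (heig : EigStmt) :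
    CbdStmt := by
  intro ℓ _ F _ hF G _ _ N P b hS
  have hNn := hS.normal
  refine hcmq ℓ F hF G N (Subgroup.normalizer (P : Set G)) hS.frat b
    (fun t : Subgroup.normalizer (P : Set G) => br P b t) hS.idem.1 hS.supp
    (br_cl P hS.idem.1) ?_ ?_
  · intro x hx
    have h1 : b x = 0 := hS.supp x hx
    show br P b x = 0
    unfold br
    split_ifs
    · exact h1
    · rfl
  intro τ hτ x y hk
  unfold csum
  classical
  let g : (N → F) → (N.subgroupOf (Subgroup.normalizer (P : Set G)) → F) := fun φ =>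
    if h : ∃ θ, CorD N P φ θ then h.choose else 0
  have hg : ∀ φ ∈ phiSet N b (x : G) (y : G), CorD N P φ (g φ) := by
    intro φ hφ
    have hex : ∃ θ, CorD N P φ θ := cor_ex hird hrsd heig hF hS hφ.1 hφ.2.1
    have h1 : g φ = hex.choose := dif_pos hex
    rw [h1]
    exact hex.choose_spec
  refine finsum_mem_eq_of_bijOn g ⟨?_, ?_, ?_⟩ ?_
  · intro φ hφ
    exact (mem_iff hind hund hebd hrsd hc3d heig hF hS (hg φ hφ) x y).1 hφ
  · intro φ hφ φ' hφ' heq
    have h1 := hg φ hφ
    rw [heq] at h1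
    exact cor_left hind hrsd heig hF hS hφ.2.1 hφ'.2.1 h1 (hg φ' hφ')
  · intro θ hθ
    obtain ⟨φ, hc⟩ := cor_ex' hsud hrsd heig hF hS hθ.1 hθ.2.1
    have hφ := (mem_iff hind hund hebd hrsd hc3d heig hF hS hc x y).2 hθ
    exact ⟨φ, hφ, cor_right hund hrsd hF hS (hg φ hφ) hc⟩
  · intro φ hφ
    have hc := hg φ hφ
    have hθ := (mem_iff hind hund hebd hrsd hc3d heig hF hS hc x y).1 hφ
    rw [hc4d ℓ F hF G N P hS.le φ (g φ) hc x y hk hφ.2.2.1 hφ.2.2.2 hθ.2.2.1 hθ.2.2.2]

end Pool.Agent.PP.D1H51
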